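import Mathlib

/-! The standard Gaussian measure on a finite product and integration by parts. -/

open MeasureTheory ProbabilityTheory
open scoped ENNReal

noncomputable section

namespace Pool.Agent.Lib.LL39

variable {I : Type} [Fintype I]

/-- The standard Gaussian measure. -/
abbrev gam (I : Type) [Fintype I] : Measure (I → ℝ) := Measure.pi fun _ => gaussianReal 0 1

/-- Its density. -/
def wt (q : I → ℝ) : ℝ := ∏ i, gaussianPDFReal 0 1 (q i)

theorem wt_pos (q : I → ℝ) : 0 < wt q :=
  Finset.prod_pos fun _ _ => gaussianPDFReal_pos 0 1 _ one_ne_zero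

theorem wt_eq (q : I → ℝ) :
    wt q = (√(2 * Real.pi))⁻¹ ^ Fintype.card I * Real.exp (-(∑ i, q i ^ 2) / 2) := by
  simp only [wt, gaussianPDFReal, NNReal.coe_one, mul_one, sub_zero, Finset.prod_mul_distrib,
    Finset.prod_const, Finset.card_univ, ← Real.exp_sum]
  rw [neg_div, Finset.sum_div, ← Finset.sum_neg_distrib]
  simp only [neg_div]

theorem wt_cont : Continuous (wt : (I → ℝ) → ℝ) := by
  rw [funext (wt_eq (I := I))]
  fun_prop

theorem gam_eq : gam I = volume.withDensity fun q => ENNReal.ofReal (wt q) := by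
  refine Measure.pi_eq fun s hs => ?_
  have hm : MeasurableSet (Set.pi Set.univ s) := MeasurableSet.univ_pi hs
  have hi : Integrable (wt : (I → ℝ) → ℝ) volume :=
    Integrable.fintype_prod (f := fun _ x => gaussianPDFReal 0 1 x)
      fun _ => integrable_gaussianPDFReal 0 1
  rw [withDensity_apply _ hm, ← ofReal_integral_eq_lintegral_ofReal hi.integrableOn
    (Filter.Eventually.of_forall fun q => (wt_pos q).le), volume_pi, Measure.restrict_pi_pi]
  unfold wt
  rw [integral_fintype_prod_eq_prod (f := fun _ x => gaussianPDFReal 0 1 x),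
    ENNReal.ofReal_prod_of_nonneg fun i _ =>
      integral_nonneg fun x => gaussianPDFReal_nonneg 0 1 x]
  exact Finset.prod_congr rfl fun i _ => (gaussianReal_apply_eq_integral 0 one_ne_zero _).symm

variable {F : Type} [NormedAddCommGroup F] [NormedSpace ℝ F]

theorem wt_meas : Measurable fun q : I → ℝ => ENNReal.ofReal (wt q) :=
  wt_cont.measurable.ennreal_ofReal

theorem int_gam (f : (I → ℝ) → F) : ∫ q, f q ∂gam I = ∫ q, wt q • f q := by
  rw [gam_eq, integral_withDensity_eq_integral_toReal_smul wt_meas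
    (Filter.Eventually.of_forall fun _ => ENNReal.ofReal_lt_top)]
  simp only [ENNReal.toReal_ofReal (wt_pos _).le]

theorem integrable_gam {f : (I → ℝ) → F} :
    Integrable f (gam I) ↔ Integrable fun q => wt q • f q := by
  rw [gam_eq, integrable_withDensity_iff_integrable_smul' wt_meas
    (Filter.Eventually.of_forall fun _ => ENNReal.ofReal_lt_top)]
  simp only [ENNReal.toReal_ofReal (wt_pos _).le]

theorem wt_line [DecidableEq I] (l : I) (q : I → ℝ) :
    HasLineDerivAt ℝ wt (-(q l * wt q)) q (Pi.single l 1) := by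
  unfold HasLineDerivAt
  simp only [wt_eq]
  have h1 : HasDerivAt (fun t : ℝ => ∑ i, (q + t • (Pi.single l 1 : I → ℝ)) i ^ 2) (2 * q l) 0 := by
    have h2 : ∀ i ∈ Finset.univ, HasDerivAt (fun t : ℝ => (q + t • (Pi.single l 1 : I → ℝ)) i ^ 2)
        (2 * q i * (Pi.single l 1 : I → ℝ) i) 0 := fun i _ => by
      refine ((((hasDerivAt_id (0 : ℝ)).mul_const ((Pi.single l 1 : I → ℝ) i)).const_add
        (q i)).fun_pow 2).congr_deriv ?_
      simp
    have h3 := HasDerivAt.fun_sum h2
    rwa [Finset.sum_eq_single l (fun i _ hi => by rw [Pi.single_eq_of_ne hi, mul_zero])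
      (fun h => absurd (Finset.mem_univ l) h), Pi.single_eq_same, mul_one] at h3
  have h4 := ((h1.neg.div_const 2).exp).const_mul ((√(2 * Real.pi))⁻¹ ^ Fintype.card I)
  refine h4.congr_deriv ?_
  simp only [Pi.neg_apply, zero_smul, add_zero]
  ring

/-- Gaussian integration by parts. -/
theorem ibp_line [DecidableEq I] (l : I) {f f' : (I → ℝ) → F}
    (hd : ∀ q, HasLineDerivAt ℝ f (f' q) q (Pi.single l 1)) (h0 : Integrable f (gam I))
    (h1 : Integrable (fun q => q l • f q) (gam I)) (h2 : Integrable f' (gam I)) :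
    ∫ q, f' q ∂gam I = ∫ q, q l • f q ∂gam I := by
  rw [integrable_gam] at h0 h1 h2
  have h := integral_bilinear_hasLineDerivAt_right_eq_neg_left_of_integrable (μ := volume)
    (f := wt) (f' := fun q => -(q l * wt q)) (g := f) (g' := f') (v := Pi.single l 1)
    (B := ContinuousLinearMap.lsmul ℝ ℝ)
    (h1.neg.congr (Filter.Eventually.of_forall fun q => by
      simp only [ContinuousLinearMap.lsmul_apply, neg_smul, smul_smul, mul_comm, Pi.neg_apply]))
    h2 h0 (fun q _ => wt_line l q) fun q _ => hd q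
  simp only [ContinuousLinearMap.lsmul_apply, neg_smul, integral_neg, neg_neg] at h
  rw [int_gam, int_gam, h]
  simp only [smul_smul, mul_comm]

/-- Polynomial growth. -/
def PG {G : Type} [Norm G] (f : (I → ℝ) → G) : Prop :=
  ∃ (C : ℝ) (k : ℕ), 0 ≤ C ∧ ∀ q, ‖f q‖ ≤ C * (1 + ‖q‖) ^ k

theorem integrable_pow (k : ℕ) : Integrable (fun q : I → ℝ => (1 + ‖q‖) ^ k) (gam I) := by
  have h0 : ∀ i, MemLp (fun q : I → ℝ => q i) k (gam I) := fun i =>
    (memLp_id_gaussianReal' (μ := 0) (v := 1) k (by simp)).comp_measurePreserving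
      (measurePreserving_eval (fun _ : I => gaussianReal 0 1) i)
  have h1 : MemLp (fun q : I → ℝ => ∑ i, ‖q i‖) k (gam I) :=
    memLp_finsetSum _ fun i _ => (h0 i).norm
  have h3 : MemLp (fun q : I → ℝ => ‖q‖) k (gam I) :=
    h1.of_le continuous_norm.aestronglyMeasurable (Filter.Eventually.of_forall fun q => by
      have h4 : 0 ≤ ∑ i, ‖q i‖ := Finset.sum_nonneg fun i _ => norm_nonneg _
      rw [norm_norm, Real.norm_of_nonneg h4, pi_norm_le_iff_of_nonneg h4]
      exact fun i => Finset.single_le_sum (fun j _ => norm_nonneg (q j)) (Finset.mem_univ i))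
  have h2 : MemLp (fun q : I → ℝ => 1 + ‖q‖) k (gam I) := (memLp_const (1 : ℝ)).add h3
  rcases Nat.eq_zero_or_pos k with rfl | hk
  · simp
  · refine (h2.integrable_norm_pow hk.ne').congr (Filter.Eventually.of_forall fun q => ?_)
    simp only [Real.norm_of_nonneg (show 0 ≤ 1 + ‖q‖ by positivity)]

namespace PG

variable {G : Type} [SeminormedAddCommGroup G]

omit [NormedSpace ℝ F] in
theorem integrable {f : (I → ℝ) → F} (h : PG f) (hm : AEStronglyMeasurable f (gam I)) :
    Integrable f (gam I) := by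
  obtain ⟨C, k, -, hb⟩ := h
  exact ((integrable_pow k).const_mul C).mono' hm (Filter.Eventually.of_forall hb)

theorem of_le {G' : Type} [Norm G'] {f : (I → ℝ) → G'} {H : Type} [Norm H] {g : (I → ℝ) → H}
    (h : PG g) (hle : ∀ q, ‖f q‖ ≤ ‖g q‖) : PG f := by
  obtain ⟨C, k, h0, hb⟩ := h
  exact ⟨C, k, h0, fun q => (hle q).trans (hb q)⟩

theorem const (c : G) : PG fun _ : I → ℝ => c := ⟨‖c‖, 0, norm_nonneg c, fun q => by simp⟩

theorem of_bound {f : (I → ℝ) → G} {C : ℝ} (h : ∀ q, ‖f q‖ ≤ C) : PG f :=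
  ⟨C, 0, (norm_nonneg _).trans (h 0), fun q => by simpa using h q⟩

theorem coord (l : I) : PG fun q : I → ℝ => q l :=
  ⟨1, 1, zero_le_one, fun q => by
    rw [one_mul, pow_one]; linarith [norm_le_pi_norm q l]⟩

theorem add {f g : (I → ℝ) → G} (hf : PG f) (hg : PG g) : PG fun q => f q + g q := by
  obtain ⟨C, k, h0, hb⟩ := hf
  obtain ⟨D, m, h1, hc⟩ := hg
  refine ⟨C + D, k + m, add_nonneg h0 h1, fun q => (norm_add_le _ _).trans ?_⟩
  have h2 : 1 ≤ 1 + ‖q‖ := le_add_of_nonneg_right (norm_nonneg q)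
  rw [add_mul]
  exact add_le_add ((hb q).trans (mul_le_mul_of_nonneg_left
    (pow_le_pow_right₀ h2 (Nat.le_add_right k m)) h0)) ((hc q).trans (mul_le_mul_of_nonneg_left
    (pow_le_pow_right₀ h2 (Nat.le_add_left m k)) h1))

theorem neg {f : (I → ℝ) → G} (hf : PG f) : PG fun q => -f q := hf.of_le fun _ => (norm_neg _).le

theorem sub {f g : (I → ℝ) → G} (hf : PG f) (hg : PG g) : PG fun q => f q - g q := by
  simpa only [sub_eq_add_neg] using hf.add hg.neg

theorem sum {ι : Type} {s : Finset ι} {f : ι → (I → ℝ) → G} (h : ∀ i ∈ s, PG (f i)) :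
    PG fun q => ∑ i ∈ s, f i q := by
  classical
  induction s using Finset.induction_on with
  | empty => simpa using const (0 : G)
  | insert a s ha ih =>
    simpa only [Finset.sum_insert ha] using (h a (Finset.mem_insert_self a s)).add
      (ih fun i hi => h i (Finset.mem_insert_of_mem hi))

theorem of_le_mul {A B : Type} [SeminormedAddCommGroup A] [SeminormedAddCommGroup B]
    {f : (I → ℝ) → A} {g : (I → ℝ) → B} {h : (I → ℝ) → G} (hf : PG f) (hg : PG g)
    (hle : ∀ q, ‖h q‖ ≤ ‖f q‖ * ‖g q‖) : PG h := by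
  obtain ⟨C, k, h0, hb⟩ := hf
  obtain ⟨D, m, h1, hc⟩ := hg
  refine ⟨C * D, k + m, mul_nonneg h0 h1, fun q => (hle q).trans ?_⟩
  rw [pow_add, mul_mul_mul_comm]
  exact mul_le_mul (hb q) (hc q) (norm_nonneg _) (by positivity)

theorem mul {A : Type} [SeminormedRing A] {f g : (I → ℝ) → A} (hf : PG f) (hg : PG g) :
    PG fun q => f q * g q := hf.of_le_mul hg fun _ => norm_mul_le _ _

theorem smul {A : Type} [NormedField A] [NormedSpace A G] {f : (I → ℝ) → A} {g : (I → ℝ) → G}
    (hf : PG f) (hg : PG g) : PG fun q => f q • g q := hf.of_le_mul hg fun _ => norm_smul_le _ _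

theorem pow {A : Type} [SeminormedRing A] {f : (I → ℝ) → A} (hf : PG f) (k : ℕ) :
    PG fun q => f q ^ k := by
  induction k with
  | zero => simpa using const (1 : A)
  | succ k ih => simpa only [pow_succ] using ih.mul hf

theorem norm {f : (I → ℝ) → G} (hf : PG f) : PG fun q => ‖f q‖ := hf.of_le fun _ => norm_norm _ |>.le

theorem ofReal {f : (I → ℝ) → ℝ} (hf : PG f) : PG fun q => (f q : ℂ) :=
  hf.of_le fun _ => (Complex.norm_real _).le

end PG

/-- Gaussian integration by parts for functions of polynomial growth. -/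
theorem ibp [DecidableEq I] (l : I) {f f' : (I → ℝ) → F}
    (hd : ∀ q, HasLineDerivAt ℝ f (f' q) q (Pi.single l 1)) (hc : Continuous f)
    (hc' : Continuous f') (h0 : PG f) (h2 : PG f') :
    ∫ q, f' q ∂gam I = ∫ q, q l • f q ∂gam I :=
  ibp_line l hd (h0.integrable hc.aestronglyMeasurable)
    (((PG.coord l).smul h0).integrable ((continuous_apply l).smul hc).aestronglyMeasurable)
    (h2.integrable hc'.aestronglyMeasurable)

end Pool.Agent.Lib.LL39
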