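import Pool.Agent.Lib.LL39.Wick
import Pool.Agent.Lib.MP_791321_mp.Fock

/-! The Schroedinger representation of Fock space with coefficients in a pre-Hilbert space. -/

open MeasureTheory MvPolynomial Finset
open scoped ComplexConjugate InnerProductSpace

set_option linter.unusedSectionVars false

noncomputable section

namespace Pool.Agent.Lib.LL39

open Pool.Agent.Lib.MP_791321_mp

variable {I T T' : Type} [DecidableEq I] [Fintype I] [SeminormedAddCommGroup T]
  [InnerProductSpace ℂ T] [SeminormedAddCommGroup T'] [InnerProductSpace ℂ T']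

theorem fsum_eq (Φ : (I → ℕ) → ℂ) (u : Fk I T) {s : Finset (I → ℕ)}
    (hs : ∀ n, n ∉ s → u.val n = 0) : ∑ᶠ n, Φ n • u.val n = ∑ n ∈ s, Φ n • u.val n :=
  finsum_eq_sum_of_support_subset _ fun n hn => by
    by_contra h
    exact hn (by simp [hs n h])

theorem out_supp (u : Fk I T) (n : I → ℕ) (h : n ∉ u.fin.toFinset) : u.val n = 0 := by
  simpa using h

theorem two_supp (u : Fk I T) (w : Fk I T') : ∃ s : Finset (I → ℕ),
    (∀ n, n ∉ s → u.val n = 0) ∧ ∀ n, n ∉ s → w.val n = 0 :=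
  ⟨u.fin.toFinset ∪ w.fin.toFinset, fun n h => out_supp u n fun h' => h (mem_union_left _ h'),
    fun n h => out_supp w n fun h' => h (mem_union_right _ h')⟩

/-- Pairing of a Fock vector with a family of numbers. -/
def pr (Φ : (I → ℕ) → ℂ) : Fk I T →ₗ[ℂ] T where
  toFun u := ∑ᶠ n, Φ n • u.val n
  map_add' u w := by
    obtain ⟨s, h1, h2⟩ := two_supp u w
    rw [fsum_eq Φ u h1, fsum_eq Φ w h2, fsum_eq Φ (u + w) (s := s) fun n h => by
      rw [Fk.val_add, h1 n h, h2 n h, add_zero]]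
    simp only [Fk.val_add, smul_add, sum_add_distrib]
  map_smul' c u := by
    rw [fsum_eq Φ u (out_supp u), fsum_eq Φ (c • u) (s := u.fin.toFinset) fun n h => by
      rw [Fk.val_smul, out_supp u n h, smul_zero]]
    simp only [Fk.val_smul, smul_sum, RingHom.id_apply, smul_comm c]

theorem pr_eq (Φ : (I → ℕ) → ℂ) (u : Fk I T) {s : Finset (I → ℕ)}
    (hs : ∀ n, n ∉ s → u.val n = 0) : pr Φ u = ∑ n ∈ s, Φ n • u.val n := fsum_eq Φ u hs

theorem pr_lift (Φ : (I → ℕ) → ℂ) (p : T →ₗ[ℂ] T') (u : Fk I T) :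
    pr Φ (Fk.lift p u) = p (pr Φ u) := by
  rw [pr_eq Φ u (out_supp u), pr_eq Φ (Fk.lift p u) (s := u.fin.toFinset) fun n h => by
    rw [Fk.val_lift, out_supp u n h, map_zero]]
  simp only [Fk.val_lift, map_sum, map_smul]

theorem pr_sum {ι : Type} (s : Finset ι) (c : ι → ℂ) (Φ : ι → (I → ℕ) → ℂ) (u : Fk I T) :
    pr (fun n => ∑ i ∈ s, c i * Φ i n) u = ∑ i ∈ s, c i • pr (Φ i) u := by
  simp only [pr_eq _ u (out_supp u), sum_smul, smul_sum, mul_smul]
  exact sum_comm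

theorem pr_add (Φ Ψ : (I → ℕ) → ℂ) (u : Fk I T) :
    pr (fun n => Φ n + Ψ n) u = pr Φ u + pr Ψ u := by
  simp only [pr_eq _ u (out_supp u), add_smul, sum_add_distrib]

theorem pr_mul (c : ℂ) (Φ : (I → ℕ) → ℂ) (u : Fk I T) :
    pr (fun n => c * Φ n) u = c • pr Φ u := by
  simp only [pr_eq _ u (out_supp u), mul_smul, smul_sum]

theorem up_sum (m : I) (f : (I → ℕ) → T) (hf : ∀ n, n m = 0 → f n = 0) :
    ∑ᶠ n, f (Function.update n m (n m + 1)) = ∑ᶠ n, f n := by
  rw [← finsum_mem_range (Fk.up_inj m), ← finsum_mem_univ f]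
  refine finsum_mem_inter_support_eq' _ _ _ fun n hn => ⟨fun _ => trivial, fun _ => ?_⟩
  exact ⟨_, Fk.up_down m n fun h => hn (hf n h)⟩

theorem pr_a (Φ : (I → ℕ) → ℂ) (m : I) (u : Fk I T) : pr Φ (Fk.a m u) =
    pr (fun n => ((√(n m : ℝ) : ℝ) : ℂ) * Φ (Function.update n m (n m - 1))) u := by
  refine Eq.trans ?_ (up_sum m (fun n => (((√(n m : ℝ) : ℝ) : ℂ) *
    Φ (Function.update n m (n m - 1))) • u.val n) fun n h => by simp [h])
  refine finsum_congr fun n => ?_
  simp only [Fk.val_a, Function.update_self, Function.update_idem, Nat.add_sub_cancel,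
    Function.update_eq_self, Nat.cast_succ, smul_smul, mul_comm]

theorem pr_c (Φ : (I → ℕ) → ℂ) (m : I) (u : Fk I T) : pr Φ (Fk.c m u) =
    pr (fun n => ((√((n m : ℝ) + 1) : ℝ) : ℂ) * Φ (Function.update n m (n m + 1))) u := by
  refine Eq.trans (up_sum m (fun n => Φ n • (Fk.c m u).val n)
    fun n h => by simp [Fk.val_c, h]).symm ?_
  refine finsum_congr fun n => ?_
  simp only [Fk.val_c, Function.update_self, Function.update_idem, Nat.add_sub_cancel,
    Function.update_eq_self, Nat.cast_succ, smul_smul, mul_comm]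

variable (v : I → I → ℂ)

/-- The Schroedinger representation. -/
def JJ (q : I → ℝ) : Fk I T →ₗ[ℂ] T := pr fun n => ev (ph v n) q

/-- The annihilation operator of the real mode `l`. -/
def bo (l : I) : Fk I T →ₗ[ℂ] Fk I T := ∑ m, conj (v l m) • Fk.a m

/-- The creation operator of the real mode `l`. -/
def bs (l : I) : Fk I T →ₗ[ℂ] Fk I T := ∑ m, v l m • Fk.c m

theorem bo_eq (l : I) : (bo v l : Fk I T →ₗ[ℂ] Fk I T) = Fk.ccr.An (WithLp.toLp 2 (v l)) := rfl

theorem bs_eq (l : I) : (bs v l : Fk I T →ₗ[ℂ] Fk I T) = Fk.ccr.Cr (WithLp.toLp 2 (v l)) := rfl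

theorem JJ_eq (q : I → ℝ) (u : Fk I T) {s : Finset (I → ℕ)} (hs : ∀ n, n ∉ s → u.val n = 0) :
    JJ v q u = ∑ n ∈ s, ev (ph v n) q • u.val n := pr_eq _ u hs

theorem JJ_lift (q : I → ℝ) (p : T →ₗ[ℂ] T') (u : Fk I T) :
    JJ v q (Fk.lift p u) = p (JJ v q u) := pr_lift _ p u

theorem JJ_bo (q : I → ℝ) (l : I) (u : Fk I T) :
    JJ v q (bo v l u) = pr (fun n => ev (pderiv l (ph v n)) q) u := by
  simp only [bo, LinearMap.sum_apply, LinearMap.smul_apply, map_sum, map_smul, JJ, pr_a]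
  rw [← pr_sum]
  refine congrArg (fun Φ => pr Φ u) (funext fun n => ?_)
  simp only [d_ph, ev, map_sum, smul_eval, mul_assoc]

theorem JJ_bo_eq (q : I → ℝ) (l : I) (u : Fk I T) {s : Finset (I → ℕ)}
    (hs : ∀ n, n ∉ s → u.val n = 0) :
    JJ v q (bo v l u) = ∑ n ∈ s, ev (pderiv l (ph v n)) q • u.val n := by
  rw [JJ_bo, pr_eq _ u hs]

variable {v}

/-- The field operators act by multiplication. -/
theorem JJ_field (hv : ∀ l l', ∑ m, v l m * conj (v l' m) = if l = l' then 1 else 0)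
    (q : I → ℝ) (l : I) (u : Fk I T) : JJ v q (bo v l u + bs v l u) = (q l : ℂ) • JJ v q u := by
  rw [map_add, JJ_bo]
  simp only [bs, LinearMap.sum_apply, LinearMap.smul_apply, map_sum, map_smul, JJ, pr_c]
  rw [← pr_sum, ← pr_add, ← pr_mul]
  refine congrArg (fun Φ => pr Φ u) (funext fun n => ?_)
  have h := congrArg (fun p => ev p q) (X_ph hv l n)
  simp only [ev, map_sum, smul_eval, mul_assoc, map_sub, map_mul, eval_X] at h ⊢
  rw [← h, add_sub_cancel]

theorem a_eq (hv : ∀ l l', ∑ m, v l m * conj (v l' m) = if l = l' then 1 else 0) (m : I)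
    (u : Fk I T) : Fk.a m u = ∑ l, v l m • bo v l u := by
  simp only [bo, LinearMap.sum_apply, LinearMap.smul_apply, smul_sum, smul_smul]
  rw [sum_comm]
  simp only [← sum_smul, unit_swap hv, ite_smul, one_smul, zero_smul, sum_ite_eq, mem_univ,
    if_true]

theorem c_eq (hv : ∀ l l', ∑ m, v l m * conj (v l' m) = if l = l' then 1 else 0) (m : I)
    (u : Fk I T) : Fk.c m u = ∑ l, conj (v l m) • bs v l u := by
  simp only [bs, LinearMap.sum_apply, LinearMap.smul_apply, smul_sum, smul_smul]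
  rw [sum_comm]
  simp only [← sum_smul, mul_comm (conj _), unit_swap hv, ite_smul, one_smul, zero_smul,
    sum_ite_eq', mem_univ, if_true]

variable (v)

theorem inner_pr (Φ Ψ : (I → ℕ) → ℂ) (u w : Fk I T) {s : Finset (I → ℕ)}
    (h1 : ∀ n, n ∉ s → u.val n = 0) (h2 : ∀ n, n ∉ s → w.val n = 0) :
    ⟪pr Φ u, pr Ψ w⟫_ℂ = ∑ n ∈ s, ∑ n' ∈ s, conj (Φ n) * Ψ n' * ⟪u.val n, w.val n'⟫_ℂ := by
  rw [pr_eq Φ u h1, pr_eq Ψ w h2, sum_inner]
  simp only [inner_sum, inner_smul_left, inner_smul_right]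
  exact sum_congr rfl fun n _ => sum_congr rfl fun n' _ => by ring

theorem cj_prop (p : MvPolynomial I ℂ) :
    ContDiff ℝ ⊤ (fun q => conj (ev p q)) ∧ PG fun q => conj (ev p q) :=
  ⟨Complex.conjCLE.contDiff.comp (ev_prop p).1, (ev_prop p).2.of_le fun _ =>
    (RCLike.norm_conj _).le⟩

/-- The pointwise scalar products are smooth with polynomial growth. -/
theorem inner_prop (u w : Fk I T) : ContDiff ℝ ⊤ (fun q => ⟪JJ v q u, JJ v q w⟫_ℂ) ∧
    PG fun q => ⟪JJ v q u, JJ v q w⟫_ℂ := by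
  obtain ⟨s, h1, h2⟩ := two_supp u w
  simp only [JJ, inner_pr _ _ u w h1 h2]
  exact ⟨ContDiff.sum fun n _ => ContDiff.sum fun n' _ =>
      ((cj_prop _).1.mul (ev_prop _).1).mul contDiff_const,
    PG.sum fun n _ => PG.sum fun n' _ => ((cj_prop _).2.mul (ev_prop _).2).mul (PG.const _)⟩

theorem inner_int (u w : Fk I T) : Integrable (fun q => ⟪JJ v q u, JJ v q w⟫_ℂ) (gam I) :=
  (inner_prop v u w).2.integrable (inner_prop v u w).1.continuous.aestronglyMeasurable

theorem inner_line (u w : Fk I T) (l : I) (q : I → ℝ) :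
    HasLineDerivAt ℝ (fun q => ⟪JJ v q u, JJ v q w⟫_ℂ)
      (⟪JJ v q (bo v l u), JJ v q w⟫_ℂ + ⟪JJ v q u, JJ v q (bo v l w)⟫_ℂ) q (Pi.single l 1) := by
  obtain ⟨s, h1, h2⟩ := two_supp u w
  rw [JJ_bo, JJ_bo]
  simp only [JJ, inner_pr _ _ u w h1 h2, ← sum_add_distrib, ← add_mul]
  refine HasDerivAt.fun_sum fun n _ => HasDerivAt.fun_sum fun n' _ => HasDerivAt.mul_const ?_ _
  have := (HasDerivAt.star (ev_line (ph v n) l q)).fun_mul (ev_line (ph v n') l q)
  simp only [zero_smul, add_zero] at this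
  exact this

variable {v}

/-- The representation is isometric. -/
theorem int_inner (hv : ∀ l l', ∑ m, v l m * conj (v l' m) = if l = l' then 1 else 0)
    (u w : Fk I T) : ∫ q, ⟪JJ v q u, JJ v q w⟫_ℂ ∂gam I = ⟪u, w⟫_ℂ := by
  obtain ⟨s, h1, h2⟩ := two_supp u w
  simp only [JJ, inner_pr _ _ u w h1 h2]
  rw [integral_finsetSum _ fun n _ => integrable_finsetSum _ fun n' _ => (bb_int _ _).mul_const _,
    Fk.inner_def, tsum_eq_sum (s := s) fun n hn => by rw [h1 n hn, inner_zero_left]]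
  refine sum_congr rfl fun n hn => ?_
  rw [integral_finsetSum _ fun n' _ => (bb_int _ _).mul_const _]
  have h3 : ∀ n', ∫ q, conj (ev (ph v n) q) * ev (ph v n') q * ⟪u.val n, w.val n'⟫_ℂ ∂gam I =
      (if n = n' then 1 else 0) * ⟪u.val n, w.val n'⟫_ℂ := fun n' => by
    rw [integral_mul_const, ← bb_ph hv, bb]
  simp only [h3, ite_mul, one_mul, zero_mul, sum_ite_eq, hn, if_true]

variable (v)

/-- The density. -/
def rho (u : Fk I T) (q : I → ℝ) : ℝ := ‖JJ v q u‖ ^ 2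

theorem rho_eq (u : Fk I T) (q : I → ℝ) : rho v u q = (⟪JJ v q u, JJ v q u⟫_ℂ).re :=
  (inner_self_eq_norm_sq (𝕜 := ℂ) _).symm

theorem rho_nonneg (u : Fk I T) (q : I → ℝ) : 0 ≤ rho v u q := sq_nonneg _

theorem rho_prop (u : Fk I T) : ContDiff ℝ ⊤ (rho v u) ∧ PG (rho v u) := by
  rw [funext (rho_eq v u)]
  exact ⟨Complex.reCLM.contDiff.comp (inner_prop v u u).1,
    (inner_prop v u u).2.of_le fun _ => Complex.abs_re_le_norm _⟩

theorem rho_int (u : Fk I T) : Integrable (rho v u) (gam I) :=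
  (rho_prop v u).2.integrable (rho_prop v u).1.continuous.aestronglyMeasurable

/-- The derivative of the density. -/
def drho (u : Fk I T) (l : I) (q : I → ℝ) : ℝ := 2 * (⟪JJ v q u, JJ v q (bo v l u)⟫_ℂ).re

theorem drho_prop (u : Fk I T) (l : I) : ContDiff ℝ ⊤ (drho v u l) ∧ PG (drho v u l) :=
  ⟨contDiff_const.mul (Complex.reCLM.contDiff.comp (inner_prop v u _).1),
    (PG.const 2).mul ((inner_prop v u _).2.of_le fun _ => Complex.abs_re_le_norm _)⟩

theorem rho_line (u : Fk I T) (l : I) (q : I → ℝ) :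
    HasLineDerivAt ℝ (rho v u) (drho v u l q) q (Pi.single l 1) := by
  rw [funext (rho_eq v u)]
  refine (Complex.reCLM.hasFDerivAt.comp_hasDerivAt _ (inner_line v u u l q)).congr_deriv ?_
  rw [Complex.reCLM_apply, Complex.add_re, drho, ← inner_conj_symm (JJ v q (bo v l u)),
    Complex.conj_re, two_mul]

theorem rho_fderiv (u : Fk I T) (l : I) (q : I → ℝ) :
    fderiv ℝ (rho v u) q (Pi.single l 1) = drho v u l q :=
  (((rho_prop v u).1.differentiable (by simp) q).hasFDerivAt.hasLineDerivAt _).unique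
    (rho_line v u l q)

theorem drho_sq (u : Fk I T) (l : I) (q : I → ℝ) :
    drho v u l q ^ 2 ≤ 4 * rho v u q * rho v (bo v l u) q := by
  have h := (Complex.abs_re_le_norm _).trans
    (norm_inner_le_norm (𝕜 := ℂ) (JJ v q u) (JJ v q (bo v l u)))
  have h2 := pow_le_pow_left₀ (abs_nonneg _) h 2
  rw [sq_abs, mul_pow] at h2
  rw [drho, rho, rho]
  linarith

variable {v}

theorem int_rho (hv : ∀ l l', ∑ m, v l m * conj (v l' m) = if l = l' then 1 else 0)
    (u : Fk I T) : ∫ q, rho v u q ∂gam I = ‖u‖ ^ 2 := by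
  rw [funext (rho_eq v u), ← inner_self_eq_norm_sq (𝕜 := ℂ), ← int_inner hv]
  exact integral_re (inner_int v u u)

/-- The field energy in terms of the real modes. -/
theorem hf_eq (hv : ∀ l l', ∑ m, v l m * conj (v l' m) = if l = l' then 1 else 0) (om : I → ℝ)
    (ho : ∀ l m, v l m ≠ 0 → om l = om m) (u : Fk I T) :
    ∑ m, om m * ‖Fk.a m u‖ ^ 2 = ∑ l, om l * ‖bo v l u‖ ^ 2 := by
  have h1 : ∀ l m, (om m : ℂ) * v l m = om l * v l m := fun l m => by
    by_cases h : v l m = 0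
    · rw [h, mul_zero, mul_zero]
    · rw [ho l m h]
  have h2 : ∑ m, (om m : ℂ) * ⟪Fk.a m u, Fk.a m u⟫_ℂ =
      ∑ l, (om l : ℂ) * ⟪bo v l u, bo v l u⟫_ℂ := by
    have h3 : ∀ m, (om m : ℂ) * ⟪Fk.a m u, Fk.a m u⟫_ℂ =
        ∑ l, (om l : ℂ) * (v l m * ⟪Fk.a m u, bo v l u⟫_ℂ) := fun m => by
      nth_rw 2 [a_eq hv m u]
      simp only [inner_sum, inner_smul_right, mul_sum, ← mul_assoc]
      exact sum_congr rfl fun l _ => by rw [h1]
    simp only [h3]
    rw [sum_comm]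
    refine sum_congr rfl fun l _ => ?_
    rw [← mul_sum]
    nth_rw 2 [bo]
    simp only [LinearMap.sum_apply, LinearMap.smul_apply, sum_inner, inner_smul_left,
      Complex.conj_conj]
  simp only [inner_self_eq_norm_sq_to_K] at h2
  exact Complex.ofReal_injective (by push_cast; exact h2)

end Pool.Agent.Lib.LL39
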