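import Pool.Agent.Lib.LL.B_F2

/-! Project ll30: lower bounds for the field energy, the soft minimum over a finite family. -/

open MeasureTheory Finset
open scoped Matrix

set_option linter.unusedSectionVars false

noncomputable section

namespace Pool.Agent.Lib.LL

namespace T39

variable {I C J : Type} [Fintype I] [Fintype C] [Fintype J]

theorem jensen {w : J → ℝ} (h0 : ∀ i, 0 ≤ w i) (h1 : ∑ i, w i = 1) (a : J → ℝ) :
    (∑ i, w i * a i) ^ 2 ≤ ∑ i, w i * a i ^ 2 := by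
  obtain ⟨b, hb⟩ : ∃ b, b = ∑ i, w i * a i := ⟨_, rfl⟩
  have h2 : 0 ≤ ∑ i, w i * (a i - b) ^ 2 := sum_nonneg fun i _ => mul_nonneg (h0 i) (sq_nonneg _)
  have h3 : ∑ i, w i * (a i - b) ^ 2 =
      ∑ i, w i * a i ^ 2 - 2 * b * ∑ i, w i * a i + b ^ 2 * ∑ i, w i := by
    simp only [mul_sum, ← sum_sub_distrib, ← sum_add_distrib]
    exact sum_congr rfl fun i _ => by ring
  rw [h3, h1, ← hb] at h2
  rw [← hb]
  linarith

theorem cov_le {w : J → ℝ} (h0 : ∀ i, 0 ≤ w i) (h1 : ∑ i, w i = 1) (y z : J → ℝ) (t : ℝ) :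
    |2 * t * (∑ i, w i * (y i * z i) - (∑ i, w i * y i) * ∑ i, w i * z i)| ≤
      t ^ 2 * ∑ i, w i * y i ^ 2 + ∑ i, w i * z i ^ 2 := by
  have k : ∀ s : ℝ, (s * ∑ i, w i * y i + ∑ i, w i * z i) ^ 2 ≤ s ^ 2 * ∑ i, w i * y i ^ 2 +
      2 * s * ∑ i, w i * (y i * z i) + ∑ i, w i * z i ^ 2 := fun s => by
    have h := jensen h0 h1 fun i => s * y i + z i
    have e1 : ∑ i, w i * (s * y i + z i) = s * ∑ i, w i * y i + ∑ i, w i * z i := by
      simp only [mul_sum, ← sum_add_distrib]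
      exact sum_congr rfl fun i _ => by ring
    have e2 : ∑ i, w i * (s * y i + z i) ^ 2 = s ^ 2 * ∑ i, w i * y i ^ 2 +
        2 * s * ∑ i, w i * (y i * z i) + ∑ i, w i * z i ^ 2 := by
      simp only [mul_sum, ← sum_add_distrib]
      exact sum_congr rfl fun i _ => by ring
    rwa [e1, e2] at h
  have k1 := k t
  have k2 := k (-t)
  rw [abs_le]
  constructor <;> nlinarith [sq_nonneg (t * ∑ i, w i * y i), sq_nonneg (∑ i, w i * z i)]

theorem gibbs [Nonempty J] (U : J → ℝ) {β : ℝ} (hβ : 0 < β) (i : J) :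
    ∑ j, Real.exp (-β * U j) / (∑ k, Real.exp (-β * U k)) * U j ≤
      U i + Real.log (Fintype.card J) / β := by
  obtain ⟨Z, hZ⟩ : ∃ Z, Z = ∑ k, Real.exp (-β * U k) := ⟨_, rfl⟩
  have h1 : Real.exp (-β * U i) ≤ Z :=
    hZ ▸ single_le_sum (fun k _ => (Real.exp_pos (-β * U k)).le) (mem_univ i)
  have Z0 : 0 < Z := (Real.exp_pos _).trans_le h1
  have M0 : (0 : ℝ) < Fintype.card J := Nat.cast_pos.2 Fintype.card_pos
  have h2 : -β * U i ≤ Real.log Z := (Real.le_log_iff_exp_le Z0).2 h1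
  have h3 : ∀ j, Real.exp (-β * U j) / Z * (β * U j + Real.log Z - Real.log (Fintype.card J)) ≤
      1 / Fintype.card J - Real.exp (-β * U j) / Z := fun j => by
    have e0 := Real.exp_pos (-β * U j)
    have a := Real.log_le_sub_one_of_pos
      (show 0 < Z / (Fintype.card J * Real.exp (-β * U j)) by positivity)
    rw [Real.log_div Z0.ne' (by positivity), Real.log_mul M0.ne' e0.ne', Real.log_exp] at a
    have b := mul_le_mul_of_nonneg_left a (div_pos e0 Z0).le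
    have c : Real.exp (-β * U j) / Z * (Z / (Fintype.card J * Real.exp (-β * U j)) - 1) =
        1 / Fintype.card J - Real.exp (-β * U j) / Z := by field_simp
    rw [c] at b
    linarith
  have h4 := sum_le_sum fun j (_ : j ∈ univ) => h3 j
  have h5 : ∑ j, Real.exp (-β * U j) / Z = 1 := by rw [← sum_div, ← hZ, div_self Z0.ne']
  have h6 : ∑ j, Real.exp (-β * U j) / Z * (β * U j + Real.log Z - Real.log (Fintype.card J)) =
      β * ∑ j, Real.exp (-β * U j) / Z * U j +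
        (Real.log Z - Real.log (Fintype.card J)) * ∑ j, Real.exp (-β * U j) / Z := by
    simp only [mul_sum, ← sum_add_distrib]
    exact sum_congr rfl fun j _ => by ring
  rw [h6, sum_sub_distrib, h5, sum_const, card_univ, nsmul_eq_mul, mul_one_div_cancel M0.ne'] at h4
  rw [← hZ, ← sub_le_iff_le_add', le_div_iff₀ hβ]
  linarith

variable [DecidableEq I]

theorem sum_psd {P : C → Matrix I I ℝ} (hP : ∀ c, (P c).PosSemidef)
    (hS : (1 - ∑ c, P c).PosSemidef) (x : C → I → ℝ) :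
    ∑ m, (∑ c, (P c *ᵥ x c) m) ^ 2 ≤ ∑ c, x c ⬝ᵥ P c *ᵥ x c := by
  obtain ⟨y, hy⟩ : ∃ y : I → ℝ, y = fun m => ∑ c, (P c *ᵥ x c) m := ⟨_, rfl⟩
  have h1 : y ⬝ᵥ y = ∑ c, y ⬝ᵥ P c *ᵥ x c := by
    nth_rw 2 [hy]
    simp only [dotProduct, mul_sum]
    exact sum_comm
  have h2 : ∑ c, y ⬝ᵥ P c *ᵥ y ≤ y ⬝ᵥ y := by
    have := hS.dotProduct_mulVec_nonneg y
    rw [star_trivial, Matrix.sub_mulVec, Matrix.one_mulVec, dotProduct_sub, Matrix.sum_mulVec,
      dotProduct_sum] at this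
    linarith
  have h3 : ∀ c, 2 * (y ⬝ᵥ P c *ᵥ x c) ≤ y ⬝ᵥ P c *ᵥ y + x c ⬝ᵥ P c *ᵥ x c := fun c => by
    have := (hP c).dotProduct_mulVec_nonneg (y - x c)
    simp only [star_trivial, Matrix.mulVec_sub, sub_dotProduct, dotProduct_sub,
      sym (hP c) (x c) y] at this
    linarith
  have h4 := sum_le_sum fun c (_ : c ∈ univ) => h3 c
  rw [← mul_sum, sum_add_distrib] at h4
  have h5 : ∑ m, (∑ c, (P c *ᵥ x c) m) ^ 2 = y ⬝ᵥ y := by
    rw [hy]; simp only [dotProduct, sq]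
  linarith

/-- The Gibbs weights. -/
def gb (U : J → (I → ℝ) → ℝ) (β : ℝ) (i : J) (q : I → ℝ) : ℝ :=
  Real.exp (-β * U i q) / ∑ k, Real.exp (-β * U k q)

section Gb

variable [Nonempty J] {U : J → (I → ℝ) → ℝ} (β : ℝ)

theorem zs_pos (q : I → ℝ) : 0 < ∑ k, Real.exp (-β * U k q) :=
  sum_pos (fun _ _ => Real.exp_pos _) univ_nonempty

theorem gb_nonneg (i : J) (q : I → ℝ) : 0 ≤ gb U β i q :=
  div_nonneg (Real.exp_pos _).le (zs_pos β q).le

theorem gb_sum (q : I → ℝ) : ∑ i, gb U β i q = 1 := by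
  simp only [gb, ← sum_div, div_self (zs_pos β q).ne']

theorem gb_diff (hU : ∀ i, C1 (U i)) (i : J) : Differentiable ℝ (gb U β i) := by
  have h1 : ∀ k, Differentiable ℝ fun q => Real.exp (-β * U k q) := fun k =>
    ((hU k).1.const_mul (-β)).exp
  have h2 : Differentiable ℝ fun q => ∑ k, Real.exp (-β * U k q) :=
    Differentiable.fun_sum fun k _ => h1 k
  have h3 := (h1 i).mul (h2.fun_inv fun q => (zs_pos β q).ne')
  exact (funext fun q => (div_eq_mul_inv _ _).symm :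
    (fun q => Real.exp (-β * U i q) * (∑ k, Real.exp (-β * U k q))⁻¹) = gb U β i) ▸ h3

theorem dl_gb (hU : ∀ i, C1 (U i)) (i : J) (m : I) (q : I → ℝ) : dl m (gb U β i) q =
    -β * gb U β i q * (dl m (U i) q - ∑ k, gb U β k q * dl m (U k) q) := by
  have h1 : ∀ k, HasDerivAt (fun t : ℝ => Real.exp (-β * U k (q + t • Pi.single m 1)))
      (Real.exp (-β * U k q) * (-β * dl m (U k) q)) 0 := fun k => by
    have := (HasDerivAt.const_mul (-β) (dl_line m ((hU k).1 q))).exp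
    simpa only [zero_smul, add_zero] using this
  have h2 := (h1 i).fun_div (HasDerivAt.fun_sum fun k (_ : k ∈ univ) => h1 k)
    (by simpa only [zero_smul, add_zero] using (zs_pos β q).ne')
  refine dl_of_line m (gb_diff β hU i q) (HasDerivAt.congr_deriv h2 ?_)
  have h3 := (zs_pos (U := U) β q).ne'
  have h4 : ∑ k, Real.exp (-β * U k q) * (-β * dl m (U k) q) =
      -β * (∑ k, Real.exp (-β * U k q)) * ∑ k, gb U β k q * dl m (U k) q := by
    rw [mul_sum]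
    refine sum_congr rfl fun k _ => ?_
    rw [gb]
    field_simp
  simp only [zero_smul, add_zero]
  rw [h4, gb]
  field_simp
  ring

theorem pg_gb (hU : ∀ i, C1 (U i)) (i : J) : PG (gb U β i) :=
  PG.of_bound (C := 1) (gb_diff β hU i).continuous fun q => by
    rw [Real.norm_of_nonneg (gb_nonneg β i q), ← gb_sum (U := U) β q]
    exact single_le_sum (fun k _ => gb_nonneg β k q) (mem_univ i)

theorem c1_gb (hU : ∀ i, C1 (U i)) (i : J) : C1 (gb U β i) :=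
  C1.mk' (gb_diff β hU i) (pg_gb β hU i) (fun m => ((pg_gb β hU i).const_mul _).mul
    (((hU i).pgd m).sub (PG.sum fun k _ => (pg_gb β hU k).mul ((hU k).pgd m)))) (dl_gb β hU i)

end Gb

theorem mv_diag (P : Matrix I I ℝ) (l q : I → ℝ) :
    (P *ᵥ fun m => l m * q m) = (P * Matrix.diagonal l) *ᵥ q := by
  rw [← Matrix.mulVec_mulVec]
  exact congrArg _ (funext fun m => (Matrix.mulVec_diagonal l q m).symm)

theorem c1_lin (P : Matrix I I ℝ) (l : I → ℝ) (m : I) :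
    C1 fun q : I → ℝ => (P *ᵥ fun k => l k * q k) m := by
  simp only [mv_diag]; exact c1_row _ m

theorem dl_lin (P : Matrix I I ℝ) (l : I → ℝ) (m k : I) (q : I → ℝ) :
    dl k (fun q : I → ℝ => (P *ᵥ fun j => l j * q j) m) q = P m k * l k := by
  simp only [mv_diag]; rw [dl_row, Matrix.mul_diagonal]

theorem c1_ql (P : Matrix I I ℝ) (l : I → ℝ) :
    C1 fun q : I → ℝ => (fun k => l k * q k) ⬝ᵥ P *ᵥ fun k => l k * q k :=
  C1.sum (f := fun m q => l m * q m * (P *ᵥ fun k => l k * q k) m) fun m _ =>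
    ((C1.coord m).const_mul _).mul (c1_lin P l m)

theorem dl_ql {P : Matrix I I ℝ} (hP : P.PosSemidef) (l : I → ℝ) (k : I) (q : I → ℝ) :
    dl k (fun q : I → ℝ => (fun j => l j * q j) ⬝ᵥ P *ᵥ fun j => l j * q j) q =
      2 * l k * (P *ᵥ fun j => l j * q j) k := by
  refine (dl_sum k (f := fun m q => l m * q m * (P *ᵥ fun j => l j * q j) m) fun m _ =>
    (((C1.coord m).const_mul _).mul (c1_lin P l m)).1 q).trans ?_
  have h : ∀ m, P m k = P k m := fun m => by simpa using (hP.1.apply k m)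
  simp only [fun m => dl_mul k (((C1.coord m).const_mul (l m)).1 q) ((c1_lin P l m).1 q),
    fun m => dl_const_mul k (l m) ((C1.coord m).1 q), dl_coord, dl_lin, sum_add_distrib, mul_ite,
    mul_one, mul_zero, ite_mul, zero_mul, sum_ite_eq', mem_univ, if_true, h]
  rw [mul_assoc, two_mul, Matrix.mulVec, dotProduct, mul_sum]
  exact congrArg _ (sum_congr rfl fun m _ => by ring)

/-- The pointwise inequality. -/
theorem soft_pt {P : C → Matrix I I ℝ} (hP : ∀ c, (P c).PosSemidef)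
    (hS : (1 - ∑ c, P c).PosSemidef) {om : J → C → ℝ} {Ω D γ : ℝ} (hΩ : 0 < Ω) (hγ : 0 ≤ γ)
    (ho : ∀ i c, |om i c| ≤ Ω) {d : I → ℝ} (hd : ∀ m, |d m| ≤ D) {w : J → ℝ} (h0 : ∀ i, 0 ≤ w i)
    (h1 : ∑ i, w i = 1) (p s : I → ℝ) :
    -((1 + γ * D * Ω) * ∑ i, w i * ∑ c, om i c ^ 2 * (p ⬝ᵥ P c *ᵥ p)) ≤
      ∑ m, (-γ * d m * (∑ i, w i * ((∑ c, om i c * (P c *ᵥ p) m) * ∑ c, om i c ^ 2 * (P c *ᵥ p) m) -
          (∑ i, w i * ∑ c, om i c * (P c *ᵥ p) m) * ∑ i, w i * ∑ c, om i c ^ 2 * (P c *ᵥ p) m) -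
        (∑ c, ((∑ i, w i * om i c) * (P c *ᵥ p) m - (P c *ᵥ s) m)) ^ 2 -
        2 * s m * ∑ c, ((∑ i, w i * om i c) * (P c *ᵥ p) m - (P c *ᵥ s) m)) := by
  have n0 : ∀ c x, 0 ≤ x ⬝ᵥ P c *ᵥ x := fun c x => by
    simpa using (hP c).dotProduct_mulVec_nonneg x
  have a1 : ∀ a : C → ℝ, ∑ m, (∑ c, a c * (P c *ᵥ p) m) ^ 2 ≤ ∑ c, a c ^ 2 * (p ⬝ᵥ P c *ᵥ p) :=
    fun a => by
      have := sum_psd hP hS fun c => a c • p
      simpa only [Matrix.mulVec_smul, smul_dotProduct, dotProduct_smul, smul_eq_mul, Pi.smul_apply,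
        ← mul_assoc, ← sq] using this
  obtain ⟨V, hV⟩ : ∃ V, V = ∑ i, w i * ∑ c, om i c ^ 2 * (p ⬝ᵥ P c *ᵥ p) := ⟨_, rfl⟩
  have a2 : ∑ m, ∑ i, w i * (∑ c, om i c * (P c *ᵥ p) m) ^ 2 ≤ V := by
    rw [sum_comm, hV]
    exact sum_le_sum fun i _ => by
      rw [← mul_sum]; exact mul_le_mul_of_nonneg_left (a1 _) (h0 i)
  have a3 : ∑ m, ∑ i, w i * (∑ c, om i c ^ 2 * (P c *ᵥ p) m) ^ 2 ≤ Ω ^ 2 * V := by
    rw [sum_comm, hV, mul_sum]
    refine sum_le_sum fun i _ => ?_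
    rw [← mul_sum, mul_left_comm, mul_sum (a := Ω ^ 2)]
    refine mul_le_mul_of_nonneg_left ((a1 _).trans (sum_le_sum fun c _ => ?_)) (h0 i)
    rw [← mul_assoc, sq (om i c ^ 2)]
    exact mul_le_mul_of_nonneg_right (mul_le_mul_of_nonneg_right
      (sq_le_sq' (abs_le.1 (ho i c)).1 (abs_le.1 (ho i c)).2) (sq_nonneg _)) (n0 c p)
  have a4 : ∀ m, -(γ * D / (2 * Ω) * (Ω ^ 2 * ∑ i, w i * (∑ c, om i c * (P c *ᵥ p) m) ^ 2 +
      ∑ i, w i * (∑ c, om i c ^ 2 * (P c *ᵥ p) m) ^ 2)) ≤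
      -γ * d m * (∑ i, w i * ((∑ c, om i c * (P c *ᵥ p) m) * ∑ c, om i c ^ 2 * (P c *ᵥ p) m) -
        (∑ i, w i * ∑ c, om i c * (P c *ᵥ p) m) * ∑ i, w i * ∑ c, om i c ^ 2 * (P c *ᵥ p) m) :=
    fun m => by
      have b1 := cov_le h0 h1 (fun i => ∑ c, om i c * (P c *ᵥ p) m)
        (fun i => ∑ c, om i c ^ 2 * (P c *ᵥ p) m) Ω
      generalize ∑ i, w i * ((∑ c, om i c * (P c *ᵥ p) m) * ∑ c, om i c ^ 2 * (P c *ᵥ p) m) -
        (∑ i, w i * ∑ c, om i c * (P c *ᵥ p) m) * ∑ i, w i * ∑ c, om i c ^ 2 * (P c *ᵥ p) m = A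
        at b1 ⊢
      generalize Ω ^ 2 * ∑ i, w i * (∑ c, om i c * (P c *ᵥ p) m) ^ 2 +
        ∑ i, w i * (∑ c, om i c ^ 2 * (P c *ᵥ p) m) ^ 2 = B at b1 ⊢
      rw [abs_mul, abs_of_pos (by positivity), ← le_div_iff₀' (by positivity)] at b1
      have b2 := mul_le_mul (hd m) b1 (abs_nonneg A) ((abs_nonneg _).trans (hd m))
      have b3 := mul_le_mul_of_nonneg_left (((le_abs_self _).trans_eq (abs_mul _ _)).trans b2) hγ
      have b4 : γ * (D * (B / (2 * Ω))) = γ * D / (2 * Ω) * B := by ring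
      linarith
  have a5 := sum_le_sum fun m (_ : m ∈ univ) => a4 m
  rw [sum_neg_distrib, ← mul_sum, sum_add_distrib, ← mul_sum] at a5
  have a6 := sum_psd hP hS fun c => (∑ i, w i * om i c) • p - s
  have a7 : ∑ m, 2 * s m * ∑ c, ((∑ i, w i * om i c) * (P c *ᵥ p) m - (P c *ᵥ s) m) =
      ∑ c, 2 * ((∑ i, w i * om i c) * (s ⬝ᵥ P c *ᵥ p) - s ⬝ᵥ P c *ᵥ s) := by
    rw [sum_congr rfl fun m _ => mul_sum univ _ (2 * s m), sum_comm]
    refine sum_congr rfl fun c _ => ?_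
    generalize ∑ i, w i * om i c = a
    simp only [dotProduct, mul_sum, ← sum_sub_distrib]
    exact sum_congr rfl fun m _ => by ring
  have a8 : ∑ c, ((∑ i, w i * om i c) • p - s) ⬝ᵥ P c *ᵥ ((∑ i, w i * om i c) • p - s) +
      ∑ c, 2 * ((∑ i, w i * om i c) * (s ⬝ᵥ P c *ᵥ p) - s ⬝ᵥ P c *ᵥ s) ≤ V := by
    rw [← sum_add_distrib, hV, sum_congr rfl fun i _ => mul_sum univ _ (w i), sum_comm]
    refine sum_le_sum fun c _ => ?_
    have b1 := mul_le_mul_of_nonneg_right (jensen h0 h1 fun i => om i c) (n0 c p)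
    simp only [← mul_assoc, ← sum_mul, Matrix.mulVec_sub, Matrix.mulVec_smul, sub_dotProduct,
      dotProduct_sub, smul_dotProduct, dotProduct_smul, smul_eq_mul, sym (hP c) p s]
    linarith [n0 c s]
  simp only [Matrix.mulVec_sub, Matrix.mulVec_smul, Pi.sub_apply, Pi.smul_apply, smul_eq_mul]
    at a6 a8
  rcases isEmpty_or_nonempty I with hI | ⟨⟨m⟩⟩
  · simp [dotProduct]
  have D0 : 0 ≤ D := (abs_nonneg _).trans (hd m)
  have a9 := mul_le_mul_of_nonneg_left (add_le_add (mul_le_mul_of_nonneg_left a2 (sq_nonneg Ω)) a3)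
    (show 0 ≤ γ * D / (2 * Ω) by positivity)
  have a10 : γ * D / (2 * Ω) * (Ω ^ 2 * V + Ω ^ 2 * V) = γ * D * Ω * V := by field_simp; ring
  rw [sum_sub_distrib, sum_sub_distrib, a7, ← hV]
  linarith

/-- The functionals of the family. -/
def uu (ν l : I → ℝ) (P : C → Matrix I I ℝ) (e : ℝ) (o : C → ℝ) (q : I → ℝ) : ℝ :=
  (1 + e) * ∑ c, o c ^ 2 * ((fun m => l m * q m) ⬝ᵥ P c *ᵥ fun m => l m * q m) -
    ∑ c, o c * ∑ m, √(ν m) * l m * P c m m

/-- The soft minimum. -/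
theorem soft [Nonempty J] {ν l : I → ℝ} {P : C → Matrix I I ℝ} {om : J → C → ℝ} {e Ω D : ℝ}
    (hν : ∀ m, 0 ≤ ν m) (hP : ∀ c, (P c).PosSemidef)
    (hS : (1 - ∑ c, P c).PosSemidef) (he : 0 < e) (hΩ : 0 < Ω) (hD : 0 < D)
    (hl : ∀ m, |√(ν m) * l m| ≤ D) (ho : ∀ i c, |om i c| ≤ Ω) :
    ∃ Ub : (I → ℝ) → ℝ, PG Ub ∧ (∀ q i, Ub q ≤ uu ν l P e (om i) q +
      Real.log (Fintype.card J) * (2 * (1 + e) * Ω * D / e)) ∧
      ∃ x : I → (I → ℝ) → ℝ, (∀ m, C1 (x m)) ∧ ∀ q, -(Ub q + 1 / 2 * ∑ c, ∑ m, ν m * P c m m) ≤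
        ∑ m, (√(ν m) * dl m (x m) q - x m q ^ 2 - √(ν m) * q m * x m q) := by
  obtain ⟨β, hβ⟩ : ∃ β, β = e / (2 * (1 + e) * Ω * D) := ⟨_, rfl⟩
  have β0 : 0 < β := by rw [hβ]; positivity
  have hU : ∀ i, C1 (uu ν l P e (om i)) := fun i =>
    ((C1.sum fun c _ => (c1_ql (P c) l).const_mul _).const_mul _).sub (C1.const _)
  have dU : ∀ i m q, dl m (uu ν l P e (om i)) q =
      2 * (1 + e) * l m * ∑ c, om i c ^ 2 * (P c *ᵥ fun k => l k * q k) m := fun i m q => by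
    have h1 := fun c => (c1_ql (P c) l).const_mul (om i c ^ 2)
    unfold uu
    rw [dl_sub m (((C1.sum fun c _ => h1 c).const_mul _).1 q) (differentiableAt_const _), dl_const,
      sub_zero, dl_const_mul m _ ((C1.sum fun c _ => h1 c).1 q), dl_sum m fun c _ => (h1 c).1 q]
    simp only [fun c => dl_const_mul m (om i c ^ 2) ((c1_ql (P c) l).1 q), dl_ql (hP _), mul_sum]
    exact sum_congr rfl fun c _ => by ring
  obtain ⟨w, hw⟩ : ∃ w, w = gb (fun i => uu ν l P e (om i)) β := ⟨_, rfl⟩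
  have cw : ∀ i, C1 (w i) := hw ▸ c1_gb β hU
  have co : ∀ c, C1 fun q => ∑ i, w i q * om i c := fun c => C1.sum fun i _ => (cw i).mul_const _
  have cx : ∀ m c, C1 fun q => (∑ i, w i q * om i c) * (P c *ᵥ fun k => l k * q k) m -
      (P c *ᵥ fun k => √(ν k) / 2 * q k) m := fun m c => ((co c).mul (c1_lin _ _ m)).sub (c1_lin _ _ m)
  have pU : PG fun q => ∑ i, w i q * uu ν l P e (om i) q := PG.sum fun i _ => (cw i).pg.mul (hU i).pg
  refine ⟨_, pU, fun q i => ?_, ?_⟩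
  · have := gibbs (fun j => uu ν l P e (om j) q) β0 i
    rw [hw]
    rwa [div_eq_mul_inv (Real.log _), show β⁻¹ = 2 * (1 + e) * Ω * D / e by rw [hβ, inv_div]] at this
  have hx : ∀ m, C1 fun q => ∑ c, ((∑ i, w i q * om i c) * (P c *ᵥ fun k => l k * q k) m -
      (P c *ᵥ fun k => √(ν k) / 2 * q k) m) := fun m => C1.sum fun c _ => cx m c
  refine ⟨_, hx, fun q => ?_⟩
  have h0 : ∀ i, 0 ≤ w i q := fun i => hw ▸ gb_nonneg β i q
  have h1 : ∑ i, w i q = 1 := hw ▸ gb_sum β q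
  have k := soft_pt hP hS hΩ (show 0 ≤ 2 * (1 + e) * β by positivity) ho hl h0 h1
    (fun k => l k * q k) fun k => √(ν k) / 2 * q k
  rw [show 2 * (1 + e) * β * D * Ω = e by rw [hβ]; field_simp] at k
  have dw : ∀ i m, dl m (w i) q = -β * w i q * (dl m (uu ν l P e (om i)) q -
      ∑ j, w j q * dl m (uu ν l P e (om j)) q) := fun i m => hw ▸ dl_gb β hU i m q
  have dx : ∀ m, √(ν m) * dl m (fun q => ∑ c, ((∑ i, w i q * om i c) *
      (P c *ᵥ fun k => l k * q k) m - (P c *ᵥ fun k => √(ν k) / 2 * q k) m)) q =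
      -(2 * (1 + e) * β) * (√(ν m) * l m) *
        (∑ i, w i q * ((∑ c, om i c * (P c *ᵥ fun k => l k * q k) m) *
          ∑ c, om i c ^ 2 * (P c *ᵥ fun k => l k * q k) m) -
        (∑ i, w i q * ∑ c, om i c * (P c *ᵥ fun k => l k * q k) m) *
          ∑ i, w i q * ∑ c, om i c ^ 2 * (P c *ᵥ fun k => l k * q k) m) +
      (∑ i, ∑ c, w i q * (om i c * (√(ν m) * l m * P c m m)) - 1 / 2 * ∑ c, ν m * P c m m) := by
    intro m
    rw [dl_sum m fun c _ => (cx m c).1 q]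
    simp only [fun c => dl_sub m (((co c).mul (c1_lin (P c) l m)).1 q)
      ((c1_lin (P c) (fun k => √(ν k) / 2) m).1 q),
      fun c => dl_mul m ((co c).1 q) ((c1_lin (P c) l m).1 q), dl_lin,
      fun c => dl_sum m (s := univ) fun i _ => ((cw i).mul_const (om i c)).1 q,
      fun i c => dl_mul_const m (om i c) ((cw i).1 q), dw, dU]
    have e1 : ∑ j, w j q * (2 * (1 + e) * l m * ∑ c, om j c ^ 2 * (P c *ᵥ fun k => l k * q k) m) =
        2 * (1 + e) * l m * ∑ j, w j q * ∑ c, om j c ^ 2 * (P c *ᵥ fun k => l k * q k) m := by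
      rw [mul_sum]; exact sum_congr rfl fun j _ => by ring
    rw [e1]
    generalize ∑ j, w j q * ∑ c, om j c ^ 2 * (P c *ᵥ fun k => l k * q k) m = Zb
    obtain ⟨z, hz⟩ : ∃ z : J → ℝ, ∀ i, ∑ c, om i c ^ 2 * (P c *ᵥ fun k => l k * q k) m = z i :=
      ⟨_, fun _ => rfl⟩
    simp only [hz]
    have e2 : ν m = √(ν m) * √(ν m) := (Real.mul_self_sqrt (hν m)).symm
    generalize √(ν m) = r at e2 ⊢
    rw [e2]
    simp only [sum_mul, mul_sum, mul_sub, mul_add, sum_add_distrib, sum_sub_distrib]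
    simp only [sum_comm (s := (univ : Finset C)) (t := (univ : Finset J)), ← sum_sub_distrib,
      ← sum_add_distrib]
    rw [← add_sub_assoc, ← sum_add_distrib]
    refine congrArg₂ _ (sum_congr rfl fun i _ => ?_) (sum_congr rfl fun c _ => by ring)
    rw [← sum_add_distrib]
    exact sum_congr rfl fun c _ => by ring
  have e3 : ∑ i, w i q * uu ν l P e (om i) q =
      (1 + e) * ∑ i, w i q * ∑ c, om i c ^ 2 *
        ((fun k => l k * q k) ⬝ᵥ P c *ᵥ fun k => l k * q k) -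
      ∑ m, ∑ i, ∑ c, w i q * (om i c * (√(ν m) * l m * P c m m)) := by
    rw [sum_comm, mul_sum, ← sum_sub_distrib]
    refine sum_congr rfl fun i _ => ?_
    rw [sum_comm, uu, mul_sub, mul_left_comm]
    simp only [mul_sum]
  have e4 : ∀ m, √(ν m) * q m = 2 * (√(ν m) / 2 * q m) := fun m => by ring
  simp only [dx, e4]
  rw [e3, sum_comm (s := (univ : Finset C))]
  simp only [sum_sub_distrib, sum_add_distrib, ← mul_sum (a := (1 / 2 : ℝ))] at k ⊢
  linarith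

end T39

end Pool.Agent.Lib.LL
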