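import Pool.Agent.Lib.LL39.Gauss

/-! Hermite polynomials in several variables and the Schroedinger representation of the
occupation number basis. -/

open MeasureTheory MvPolynomial Finset
open scoped ComplexConjugate

set_option linter.unusedSectionVars false

noncomputable section

namespace Pool.Agent.Lib.LL39

variable {I : Type} [DecidableEq I]

/-- Hermite polynomials in the variable `l`. -/
def he (l : I) (k : ℕ) : MvPolynomial I ℂ := (fun p => X l * p - pderiv l p)^[k] 1

theorem he_zero (l : I) : he l 0 = 1 := rfl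

theorem he_succ (l : I) (k : ℕ) : he l (k + 1) = X l * he l k - pderiv l (he l k) :=
  Function.iterate_succ_apply' _ _ _

theorem d_he (l : I) (k : ℕ) : pderiv l (he l k) = (k : ℂ) • he l (k - 1) := by
  induction k with
  | zero => simp [he_zero]
  | succ k ih =>
    rw [he_succ, map_sub, Derivation.leibniz, pderiv_X_self, ih, Derivation.map_smul]
    rcases k with _ | k
    · simp [he_zero]
    · simp only [Nat.add_sub_cancel, smul_eq_mul, mul_one]
      rw [Nat.cast_succ (k + 1), add_smul, one_smul, mul_smul_comm]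
      conv_rhs => rw [he_succ l k, smul_sub, ← he_succ l k]
      abel

theorem d_he_ne {l l' : I} (h : l ≠ l') (k : ℕ) : pderiv l' (he l k) = 0 := by
  induction k using Nat.strong_induction_on with
  | _ k ih =>
    rcases k with _ | k
    · simp [he_zero]
    · rw [he_succ, d_he, map_sub, Derivation.leibniz, Derivation.map_smul, ih k k.lt_succ_self,
        ih (k - 1) (by omega), pderiv_X_of_ne h]
      simp

variable [Fintype I]

/-- Products of Hermite polynomials. -/
def hp (n : I → ℕ) : MvPolynomial I ℂ := ∏ l, he l (n l)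

theorem hp_split (l : I) (n : I → ℕ) (k : ℕ) :
    hp (Function.update n l k) = he l k * ∏ j ∈ univ.erase l, he j (n j) := by
  rw [hp, ← mul_prod_erase univ _ (mem_univ l), Function.update_self]
  exact congrArg _ (prod_congr rfl fun j hj => by rw [Function.update_of_ne (ne_of_mem_erase hj)])

theorem d_rest (l : I) (n : I → ℕ) : pderiv l (∏ j ∈ univ.erase l, he j (n j)) = 0 := by
  refine prod_induction _ (fun p => pderiv l p = 0) (fun a b ha hb => ?_) (by simp)
    fun j hj => d_he_ne (ne_of_mem_erase hj) _
  rw [Derivation.leibniz, ha, hb, smul_zero, smul_zero, add_zero]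

theorem d_hp (l : I) (n : I → ℕ) :
    pderiv l (hp n) = (n l : ℂ) • hp (Function.update n l (n l - 1)) := by
  conv_lhs => rw [← Function.update_eq_self l n]
  rw [hp_split, hp_split, Derivation.leibniz, d_rest, d_he, smul_zero, zero_add, smul_eq_mul,
    mul_smul_comm, mul_comm]

theorem hp_succ (l : I) (n : I → ℕ) :
    hp (Function.update n l (n l + 1)) = X l * hp n - pderiv l (hp n) := by
  rw [d_hp, hp_split, hp_split, he_succ, d_he]
  conv_rhs => rw [← Function.update_eq_self l n, hp_split, Function.update_eq_self]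
  rw [sub_mul, mul_assoc, smul_mul_assoc]

/-- Wick ordering. -/
def wk : MvPolynomial I ℂ →ₗ[ℂ] MvPolynomial I ℂ :=
  (basisMonomials I ℂ).constr ℂ fun n => hp n

theorem wk_mon (n : I →₀ ℕ) (c : ℂ) : wk (monomial n c) = c • hp n := by
  have h : wk (monomial n 1) = hp n := by
    have := (basisMonomials I ℂ).constr_basis ℂ (fun n : I →₀ ℕ => hp n) n
    rwa [coe_basisMonomials] at this
  rw [← h, ← map_smul, smul_monomial, smul_eq_mul, mul_one]

theorem wk_one : wk (1 : MvPolynomial I ℂ) = 1 := by
  rw [show (1 : MvPolynomial I ℂ) = monomial 0 1 from rfl, wk_mon, one_smul]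
  exact prod_eq_one fun l _ => rfl

theorem wk_X (l : I) (p : MvPolynomial I ℂ) : wk (X l * p) = X l * wk p - pderiv l (wk p) := by
  induction p using MvPolynomial.induction_on' with
  | monomial n c =>
    have e : (⇑(Finsupp.single l 1 + n : I →₀ ℕ) : I → ℕ) = Function.update n l (n l + 1) := by
      funext j
      by_cases h : j = l
      · subst h; simp [add_comm]
      · simp [h]
    rw [X, monomial_mul, one_mul, wk_mon, wk_mon, e, hp_succ, smul_sub, Derivation.map_smul,
      mul_smul_comm, X]
  | add p q hp hq => simp only [mul_add, map_add, hp, hq]; abel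

theorem wk_d (l : I) (p : MvPolynomial I ℂ) : wk (pderiv l p) = pderiv l (wk p) := by
  induction p using MvPolynomial.induction_on' with
  | monomial n c =>
    have e : (⇑(n - Finsupp.single l 1 : I →₀ ℕ) : I → ℕ) = Function.update n l (n l - 1) := by
      funext j
      by_cases h : j = l
      · subst h; simp
      · simp [h]
    rw [pderiv_monomial, wk_mon, wk_mon, e, Derivation.map_smul, d_hp, mul_smul]
  | add p q hp hq => simp only [map_add, hp, hq]

variable (v : I → I → ℂ)

/-- The linear form attached to the mode `m`. -/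
def lin (m : I) : MvPolynomial I ℂ := ∑ l, conj (v l m) • X l

/-- Monomials in the linear forms. -/
def mon (n : I → ℕ) : MvPolynomial I ℂ := ∏ m, lin v m ^ n m

/-- The normalisation. -/
def nf (n : I → ℕ) : ℝ := ∏ m, √((n m).factorial : ℝ)

/-- The polynomial attached to the occupation numbers `n`. -/
def ph (n : I → ℕ) : MvPolynomial I ℂ := ((nf n)⁻¹ : ℝ) • wk (mon v n)

theorem nf_pos (n : I → ℕ) : 0 < nf n :=
  prod_pos fun _ _ => Real.sqrt_pos.2 (Nat.cast_pos.2 (Nat.factorial_pos _))

theorem nf_succ (n : I → ℕ) (m : I) :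
    nf (Function.update n m (n m + 1)) = √((n m : ℝ) + 1) * nf n := by
  rw [nf, nf, ← mul_prod_erase univ _ (mem_univ m), ← mul_prod_erase univ _ (mem_univ m),
    Function.update_self, Nat.factorial_succ, Nat.cast_mul, Real.sqrt_mul (Nat.cast_nonneg _),
    mul_assoc, Nat.cast_succ]
  exact congrArg _ (congrArg _
    (prod_congr rfl fun j hj => by rw [Function.update_of_ne (ne_of_mem_erase hj)]))

theorem mon_succ (n : I → ℕ) (m : I) :
    mon v (Function.update n m (n m + 1)) = lin v m * mon v n := by
  rw [mon, mon, ← mul_prod_erase univ _ (mem_univ m), ← mul_prod_erase univ _ (mem_univ m),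
    Function.update_self, pow_succ', mul_assoc]
  exact congrArg _ (congrArg _
    (prod_congr rfl fun j hj => by rw [Function.update_of_ne (ne_of_mem_erase hj)]))

theorem d_lin (l m : I) : pderiv l (lin v m) = C (conj (v l m)) := by
  rw [lin, map_sum, sum_eq_single l (fun j _ hj => by
    rw [Derivation.map_smul, pderiv_X_of_ne hj, smul_zero]) (fun h => absurd (mem_univ l) h),
    Derivation.map_smul, pderiv_X_self, smul_eq_C_mul, mul_one]

theorem d_prod (l : I) (s : Finset I) (f : I → MvPolynomial I ℂ) :
    pderiv l (∏ m ∈ s, f m) = ∑ m ∈ s, (∏ j ∈ s.erase m, f j) * pderiv l (f m) := by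
  induction s using Finset.induction_on with
  | empty => simp
  | insert a s ha ih =>
    rw [prod_insert ha, sum_insert ha, erase_insert ha, Derivation.leibniz, ih, smul_eq_mul,
      smul_eq_mul, add_comm, mul_sum]
    refine congrArg _ (sum_congr rfl fun m hm => ?_)
    rw [erase_insert_of_ne (ne_of_mem_of_not_mem hm ha).symm,
      prod_insert fun h => ha (mem_of_mem_erase h), mul_assoc]

theorem d_mon (l : I) (n : I → ℕ) : pderiv l (mon v n) =
    ∑ m, (conj (v l m) * n m) • mon v (Function.update n m (n m - 1)) := by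
  rw [mon, d_prod]
  refine sum_congr rfl fun m _ => ?_
  rw [Derivation.leibniz_pow, d_lin, mon, ← mul_prod_erase univ _ (mem_univ m),
    Function.update_self, prod_congr rfl fun j hj => show lin v j ^ Function.update n m (n m - 1) j
      = lin v j ^ n j by rw [Function.update_of_ne (ne_of_mem_erase hj)]]
  simp only [smul_eq_mul, nsmul_eq_mul, smul_eq_C_mul, map_mul, map_natCast]
  ring

theorem ph_zero : ph v (fun _ => 0) = 1 := by
  simp [ph, nf, mon, wk_one]

/-- Action of the creation operators. -/
theorem ph_succ (n : I → ℕ) (m : I) :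
    ((√((n m : ℝ) + 1) : ℝ) : ℂ) • ph v (Function.update n m (n m + 1)) =
      ∑ l, conj (v l m) • (X l * ph v n - pderiv l (ph v n)) := by
  have h0 : √((n m : ℝ) + 1) ≠ 0 := (Real.sqrt_pos.2 (by positivity)).ne'
  rw [ph, ph, nf_succ, mon_succ, lin, sum_mul, map_sum, Complex.coe_smul, smul_smul, mul_inv,
    mul_inv_cancel_left₀ h0, smul_sum]
  refine sum_congr rfl fun l _ => ?_
  rw [smul_mul_assoc, map_smul, wk_X, ← Complex.coe_smul, ← Complex.coe_smul, smul_comm,
    Derivation.map_smul, mul_smul_comm, ← smul_sub]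

/-- Action of the derivatives. -/
theorem d_ph (l : I) (n : I → ℕ) : pderiv l (ph v n) =
    ∑ m, (conj (v l m) * (√(n m : ℝ) : ℝ)) • ph v (Function.update n m (n m - 1)) := by
  rw [ph, ← Complex.coe_smul, Derivation.map_smul, ← wk_d, d_mon, map_sum, smul_sum]
  refine sum_congr rfl fun m _ => ?_
  rw [map_smul, ph, ← Complex.coe_smul, smul_smul, smul_smul]
  rcases h : n m with _ | k
  · simp
  · have h1 := nf_succ (Function.update n m k) m
    rw [Function.update_idem, Function.update_self, ← h, Function.update_eq_self] at h1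
    have h0 : √((k : ℝ) + 1) ≠ 0 := (Real.sqrt_pos.2 (by positivity)).ne'
    have h2 : (nf n)⁻¹ * ((k : ℝ) + 1) = √((k : ℝ) + 1) * (nf (Function.update n m k))⁻¹ := by
      rw [h1, mul_inv]
      nth_rw 2 [← Real.mul_self_sqrt (show 0 ≤ (k : ℝ) + 1 by positivity)]
      field_simp
    have h3 := congrArg (fun x : ℝ => (x : ℂ)) h2
    simp only [Nat.add_sub_cancel, Nat.cast_succ]
    push_cast at h3 ⊢
    rw [mul_left_comm, h3, mul_assoc]

variable {v}

/-- Action of the coordinates. -/
theorem X_ph (hv : ∀ l l', ∑ m, v l m * conj (v l' m) = if l = l' then 1 else 0) (l : I)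
    (n : I → ℕ) : X l * ph v n - pderiv l (ph v n) =
      ∑ m, (v l m * (√((n m : ℝ) + 1) : ℝ)) • ph v (Function.update n m (n m + 1)) := by
  simp only [mul_smul, ph_succ, smul_sum]
  simp only [smul_smul]
  rw [sum_comm]
  simp only [← sum_smul, hv, ite_smul, one_smul, zero_smul, sum_ite_eq, mem_univ, if_true]

theorem unit_swap (hv : ∀ l l', ∑ m, v l m * conj (v l' m) = if l = l' then 1 else 0)
    (m m' : I) : ∑ l, v l m * conj (v l m') = if m = m' then 1 else 0 := by
  have h1 : Matrix.of v * (Matrix.of v).conjTranspose = 1 := by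
    ext l l'
    rw [Matrix.mul_apply, Matrix.one_apply]
    exact hv l l'
  have h3 : (Matrix.of v).conjTranspose * Matrix.of v = 1 := mul_eq_one_comm.1 h1
  have h2 := congrFun (congrFun h3 m') m
  rw [Matrix.mul_apply, Matrix.one_apply] at h2
  rw [← if_congr eq_comm rfl rfl, ← h2]
  exact sum_congr rfl fun l _ => mul_comm _ _

/-- The polynomials span everything. -/
theorem span_ph (hv : ∀ l l', ∑ m, v l m * conj (v l' m) = if l = l' then 1 else 0)
    (p : MvPolynomial I ℂ) : p ∈ Submodule.span ℂ (Set.range (ph v)) := by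
  induction p using MvPolynomial.induction_on with
  | C a =>
    rw [← mul_one (C a), ← smul_eq_C_mul, ← ph_zero v]
    exact Submodule.smul_mem _ _ (Submodule.subset_span ⟨_, rfl⟩)
  | add p q hp hq => exact Submodule.add_mem _ hp hq
  | mul_X p l hp =>
    rw [mul_comm]
    induction hp using Submodule.span_induction with
    | mem x hx =>
      obtain ⟨n, rfl⟩ := hx
      rw [← sub_add_cancel (X l * ph v n) (pderiv l (ph v n)), X_ph hv, d_ph]
      exact Submodule.add_mem _ (Submodule.sum_mem _ fun m _ => Submodule.smul_mem _ _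
        (Submodule.subset_span ⟨_, rfl⟩)) (Submodule.sum_mem _ fun m _ => Submodule.smul_mem _ _
        (Submodule.subset_span ⟨_, rfl⟩))
    | zero => rw [mul_zero]; exact Submodule.zero_mem _
    | add x y _ _ hx hy => rw [mul_add]; exact Submodule.add_mem _ hx hy
    | smul a x _ hx => rw [mul_smul_comm]; exact Submodule.smul_mem _ _ hx

/-! ### Polynomials as functions -/

/-- Evaluation at a real point. -/
def ev (p : MvPolynomial I ℂ) (q : I → ℝ) : ℂ := eval (fun l => (q l : ℂ)) p

omit [DecidableEq I] in
theorem ev_prop (p : MvPolynomial I ℂ) : ContDiff ℝ ⊤ (ev p) ∧ PG (ev p) := by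
  unfold ev
  induction p using MvPolynomial.induction_on with
  | C a => simp only [eval_C]; exact ⟨contDiff_const, PG.const a⟩
  | add p q hp hq => simp only [map_add]; exact ⟨hp.1.add hq.1, hp.2.add hq.2⟩
  | mul_X p l hp =>
    simp only [map_mul, eval_X]
    exact ⟨hp.1.mul (Complex.ofRealCLM.contDiff.comp (contDiff_apply ℝ ℝ l)),
      hp.2.mul (PG.coord l).ofReal⟩

omit [DecidableEq I] in
theorem ev_cont (p : MvPolynomial I ℂ) : Continuous (ev p) := (ev_prop p).1.continuous

omit [Fintype I] in
theorem ev_line (p : MvPolynomial I ℂ) (l : I) (q : I → ℝ) :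
    HasLineDerivAt ℝ (ev p) (ev (pderiv l p) q) q (Pi.single l 1) := by
  unfold HasLineDerivAt ev
  induction p using MvPolynomial.induction_on with
  | C a => simp only [eval_C, pderiv_C, map_zero]; exact hasDerivAt_const _ _
  | add p q hp hq => simp only [map_add]; exact hp.add hq
  | mul_X p j hp =>
    have h1 : HasDerivAt (fun t : ℝ => (((q + t • (Pi.single l 1 : I → ℝ)) j : ℝ) : ℂ))
        (((Pi.single l 1 : I → ℝ) j : ℝ) : ℂ) 0 := by
      refine (HasDerivAt.ofReal_comp ?_)
      simpa using ((hasDerivAt_id (0 : ℝ)).mul_const ((Pi.single l 1 : I → ℝ) j)).const_add (q j)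
    simp only [map_mul, eval_X]
    refine (hp.fun_mul h1).congr_deriv ?_
    rw [Derivation.leibniz, pderiv_X]
    by_cases h : j = l
    · subst h; simp; ring
    · simp [h]; ring

theorem ev_fderiv (p : MvPolynomial I ℂ) (l : I) (q : I → ℝ) :
    fderiv ℝ (ev p) q (Pi.single l 1) = ev (pderiv l p) q :=
  (((ev_prop p).1.differentiable (by simp) q).hasFDerivAt.hasLineDerivAt _).unique (ev_line p l q)

/-- The Gaussian scalar product of polynomials. -/
def bb (p r : MvPolynomial I ℂ) : ℂ := ∫ q, conj (ev p q) * ev r q ∂gam I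

omit [DecidableEq I] in
theorem bb_int (p r : MvPolynomial I ℂ) : Integrable (fun q => conj (ev p q) * ev r q) (gam I) :=
  (((ev_prop p).2.of_le fun _ => (RCLike.norm_conj _).le).mul (ev_prop r).2).integrable
    ((Complex.continuous_conj.comp (ev_cont p)).mul (ev_cont r)).aestronglyMeasurable

omit [DecidableEq I] in
theorem bb_conj (p r : MvPolynomial I ℂ) : conj (bb p r) = bb r p := by
  rw [bb, bb, ← integral_conj]
  simp only [map_mul, Complex.conj_conj, mul_comm]

omit [DecidableEq I] in
theorem bb_sum {ι : Type} (s : Finset ι) (c : ι → ℂ) (p : MvPolynomial I ℂ)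
    (r : ι → MvPolynomial I ℂ) : bb p (∑ i ∈ s, c i • r i) = ∑ i ∈ s, c i * bb p (r i) := by
  simp only [bb, ← integral_const_mul]
  rw [← integral_finsetSum _ fun i _ => (bb_int p (r i)).const_mul _]
  refine integral_congr_ae (Filter.Eventually.of_forall fun q => ?_)
  simp only [ev, map_sum, smul_eval, mul_sum]
  exact sum_congr rfl fun i _ => by ring

theorem bb_adj (l : I) (p r : MvPolynomial I ℂ) :
    bb p (X l * r - pderiv l r) = bb (pderiv l p) r := by
  have cj : ∀ p : MvPolynomial I ℂ, Continuous (fun q => conj (ev p q)) ∧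
      PG fun q => conj (ev p q) := fun p => ⟨Complex.continuous_conj.comp (ev_cont p),
    (ev_prop p).2.of_le fun _ => (RCLike.norm_conj _).le⟩
  have h := ibp l (f := fun q => conj (ev p q) * ev r q)
    (f' := fun q => conj (ev (pderiv l p) q) * ev r q + conj (ev p q) * ev (pderiv l r) q)
    (fun q => by
      have := (HasDerivAt.star (ev_line p l q)).fun_mul (ev_line r l q)
      simp only [zero_smul, add_zero] at this
      exact this)
    ((cj p).1.mul (ev_cont r)) (((cj _).1.mul (ev_cont r)).add ((cj p).1.mul (ev_cont _)))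
    ((cj p).2.mul (ev_prop r).2) (((cj _).2.mul (ev_prop r).2).add ((cj p).2.mul (ev_prop _).2))
  rw [integral_add (bb_int _ _) (bb_int _ _)] at h
  have h2 : bb p (X l * r) = ∫ q, q l • (conj (ev p q) * ev r q) ∂gam I :=
    integral_congr_ae (Filter.Eventually.of_forall fun q => by
      simp only [ev, map_mul, eval_X, Complex.real_smul]; ring)
  have h3 : bb p (X l * r - pderiv l r) = bb p (X l * r) - bb p (pderiv l r) := by
    simp only [bb]
    rw [← integral_sub (bb_int _ _) (bb_int _ _)]
    simp only [ev, map_sub, mul_sub]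
  rw [h3, h2, ← h, bb, bb, add_sub_cancel_right]

theorem bb_step (hv : ∀ l l', ∑ m, v l m * conj (v l' m) = if l = l' then 1 else 0)
    (n n' : I → ℕ) (m : I) :
    ((√((n m : ℝ) + 1) : ℝ) : ℂ) * bb (ph v n') (ph v (Function.update n m (n m + 1))) =
      ((√(n' m : ℝ) : ℝ) : ℂ) * bb (ph v (Function.update n' m (n' m - 1))) (ph v n) := by
  have h1 := bb_sum ({0} : Finset ℕ) (fun _ => ((√((n m : ℝ) + 1) : ℝ) : ℂ)) (ph v n')
    fun _ => ph v (Function.update n m (n m + 1))
  rw [sum_singleton, sum_singleton] at h1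
  rw [← h1, ph_succ, bb_sum]
  simp only [bb_adj]
  simp only [d_ph, ← bb_conj (ph v n), bb_sum, map_sum, map_mul, Complex.conj_conj,
    Complex.conj_ofReal, mul_sum]
  rw [sum_comm]
  have h2 : ∀ j, ∑ l, conj (v l m) * (v l j * ((√(n' j : ℝ) : ℝ) : ℂ) *
      conj (bb (ph v n) (ph v (Function.update n' j (n' j - 1))))) =
      (if j = m then 1 else 0) * (((√(n' j : ℝ) : ℝ) : ℂ) *
      conj (bb (ph v n) (ph v (Function.update n' j (n' j - 1))))) := fun j => by
    rw [← unit_swap hv j m, sum_mul]
    exact sum_congr rfl fun l _ => by ring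
  simp only [h2, ite_mul, one_mul, zero_mul, sum_ite_eq', mem_univ, if_true]

/-- Orthonormality. -/
theorem bb_ph (hv : ∀ l l', ∑ m, v l m * conj (v l' m) = if l = l' then 1 else 0)
    (n' n : I → ℕ) : bb (ph v n') (ph v n) = if n' = n then 1 else 0 := by
  have dn : ∀ (n : I → ℕ) (m : I) (k : ℕ), n m = k + 1 → Function.update (Function.update n m k) m
      (Function.update n m k m + 1) = n := fun n m k h => by
    rw [Function.update_idem, Function.update_self, ← h, Function.update_eq_self]
  have s0 : ∀ k : ℕ, ((√((k : ℝ) + 1) : ℝ) : ℂ) ≠ 0 := fun k =>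
    Complex.ofReal_ne_zero.2 (Real.sqrt_pos.2 (by positivity)).ne'
  generalize hN : ∑ m, n m = N
  induction N generalizing n n' with
  | zero =>
    obtain rfl : n = fun _ => 0 := funext fun m => sum_eq_zero_iff.1 hN m (mem_univ m)
    split_ifs with h
    · rw [h, ph_zero]; simp [bb, ev]
    · obtain ⟨m, hm⟩ := Function.ne_iff.1 h
      obtain ⟨k, hk⟩ := Nat.exists_eq_succ_of_ne_zero hm
      have h1 := bb_step hv (Function.update n' m k) (fun _ => 0) m
      rw [dn n' m k hk, Nat.cast_zero, Real.sqrt_zero, Complex.ofReal_zero, zero_mul] at h1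
      rw [← bb_conj, (mul_eq_zero.1 h1).resolve_left (s0 _), map_zero]
  | succ N ih =>
    obtain ⟨m, -, hm⟩ := exists_ne_zero_of_sum_ne_zero (hN.trans_ne N.succ_ne_zero)
    obtain ⟨k, hk⟩ := Nat.exists_eq_succ_of_ne_zero hm
    have h1 := bb_step hv (Function.update n m k) n' m
    have h2 : ∑ j, Function.update n m k j = N := by
      rw [sum_update_of_mem (mem_univ m), sdiff_singleton_eq_erase]
      rw [← add_sum_erase univ _ (mem_univ m), hk] at hN
      omega
    rw [dn n m k hk, ih _ _ h2, Function.update_self] at h1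
    refine mul_left_cancel₀ (s0 k) (h1.trans ?_)
    by_cases h : n' = n
    · rw [h, hk, if_pos (by simp), if_pos rfl, Nat.cast_succ]
    · rw [if_neg h, mul_zero]
      rcases h3 : n' m with _ | j
      · simp
      · rw [if_neg, mul_zero]
        intro h4
        have h5 : j = k := by simpa using congrFun h4 m
        exact h (by rw [← dn n' m j h3, ← dn n m k hk, ← h4, h5, Nat.add_sub_cancel])

end Pool.Agent.Lib.LL39
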